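import Mathlib
import Pool.Agent.H50.Tor8

namespace Pool.Agent.Results.MP_f65b1b_al.Finite

open Pool.Agent.H50.Tor Pointwise

theorem result (n : ℕ) (S : Finset (Fin n →₀ ℕ)) (i : ℕ) :
    {s : ℕ → ℕ | ∃ (K : Type) (_ : Field K),
      s = fun h => tbetti (monI K (S : Set (Fin n →₀ ℕ)) ^ (h + 1)) i}.Finite := by
  refine (Set.finite_range fun (f : Finset (Fin n) → (Finset (Fin n) → Prop) → Fin (2 ^ n + 1))
    (h : ℕ) => ∑ᶠ α : Fin n →₀ ℕ, (f α.support fun τ =>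
      ∃ s ∈ (h + 1) • (S : Set (Fin n →₀ ℕ)), s ≤ α - ind τ : ℕ)).subset ?_
  rintro _ ⟨K, _, rfl⟩
  refine ⟨fun E P => ⟨hdim K E P i, Nat.lt_succ_of_le (hdim_le i)⟩, ?_⟩
  simp only [tbetti_eq, betti, monI_pow, mbetti_def]

end Pool.Agent.Results.MP_f65b1b_al.Finite
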